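import Pool.Agent.R553.FC.Words

/-!
# The sumset equations of the reduction
-/

namespace Pool.Agent.R553.FC

/-- The element which stands for the literal occurrence `k`. -/
def oo (r k : ℕ) : ℕ := 32 * r + 32 + 8 * k

/-- The complement of `oo r k`: `yy r k + oo r k = 48 * r + 48`. -/
def yy (r k : ℕ) : ℕ := 16 * r + 16 - 8 * k

/-- The threshold: sums from here on carry no information. -/
def tt (r : ℕ) : ℕ := 64 * r + 64

/-- the interval from `tt r` to `4 * tt r` -/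
def top (r : ℕ) : List ℕ := (List.range (3 * tt r + 1)).map fun i => tt r + i

/-- the list of the elements `oo r k` and `oo r k + 1` -/
def ool (r : ℕ) : List ℕ := (List.range r).flatMap fun k => [oo r k, oo r k + 1]

/-- the frame column -/
def colF (r : ℕ) : List ℕ × List ℕ :=
  (0 :: (List.range (4 * tt r - 1)).map (fun i => i + 2), 0 :: 1 :: (ool r ++ top r))

/-- the column of a clause with the literal occurrences `C` -/
def colC (r : ℕ) (C : List ℕ) : List ℕ × List ℕ :=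
  (List.range (4 * tt r + 1), List.range 3 ++ (ool r ++ (C.flatMap (fun k => [yy r k, yy r k + 1]) ++
    (C.flatMap (fun k => (List.range r).flatMap fun l =>
      if l = k then [yy r k + oo r l] else [yy r k + oo r l, yy r k + oo r l + 1]) ++ top r))))

/-- the column which forbids that `k` and `k'` are both selected -/
def colV (r k k' : ℕ) : List ℕ × List ℕ :=
  (List.range (4 * tt r + 1), List.range 6 ++ ((List.range r).flatMap (fun l =>
    ((List.range 6).filter fun d => !(decide (l = k) && decide (d = 3)) &&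
      !(decide (l = k') && decide (d = 2))).map fun d => oo r l + d) ++ top r))

theorem mem_top {r e : ℕ} : e ∈ top r ↔ tt r ≤ e ∧ e ≤ 4 * tt r := by
  unfold top
  rw [List.mem_map]
  constructor
  · rintro ⟨i, hi, rfl⟩
    rw [List.mem_range] at hi
    omega
  · rintro ⟨h1, h2⟩
    exact ⟨e - tt r, by rw [List.mem_range]; omega, by omega⟩

theorem mem_ool {r e : ℕ} : e ∈ ool r ↔ ∃ k < r, e = oo r k ∨ e = oo r k + 1 := by
  unfold ool
  simp only [List.mem_flatMap, List.mem_range, List.mem_cons, List.not_mem_nil, or_false]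

theorem mem_F0 {r e : ℕ} : e ∈ (colF r).1 ↔ e = 0 ∨ (2 ≤ e ∧ e ≤ 4 * tt r) := by
  unfold colF
  simp only [List.mem_cons, List.mem_map, List.mem_range]
  constructor
  · rintro (h | ⟨i, hi, rfl⟩)
    · exact Or.inl h
    · right
      omega
  · rintro (h | h)
    · exact Or.inl h
    · exact Or.inr ⟨e - 2, by omega, by omega⟩

theorem mem_F1 {r e : ℕ} : e ∈ (colF r).2 ↔
    e = 0 ∨ e = 1 ∨ (∃ k < r, e = oo r k ∨ e = oo r k + 1) ∨ (tt r ≤ e ∧ e ≤ 4 * tt r) := by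
  unfold colF
  simp only [List.mem_cons, List.mem_append, mem_ool, mem_top]

theorem mem_C0 {r e : ℕ} {C : List ℕ} : e ∈ (colC r C).1 ↔ e ≤ 4 * tt r := by
  unfold colC
  simp only [List.mem_range]
  omega

theorem mem_C1 {r e : ℕ} {C : List ℕ} : e ∈ (colC r C).2 ↔
    e < 3 ∨ (∃ k < r, e = oo r k ∨ e = oo r k + 1) ∨ (∃ k ∈ C, e = yy r k ∨ e = yy r k + 1) ∨
      (∃ k ∈ C, ∃ l < r, e = yy r k + oo r l ∨ (l ≠ k ∧ e = yy r k + oo r l + 1)) ∨
      (tt r ≤ e ∧ e ≤ 4 * tt r) := by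
  unfold colC
  simp only [List.mem_append, List.mem_flatMap, List.mem_range, List.mem_cons, List.not_mem_nil,
    or_false, mem_ool, mem_top]
  have key : ∀ k l : ℕ, (e ∈ (if l = k then [yy r k + oo r l] else
      [yy r k + oo r l, yy r k + oo r l + 1])) ↔
      (e = yy r k + oo r l ∨ (l ≠ k ∧ e = yy r k + oo r l + 1)) := by
    intro k l
    split_ifs with h
    · simp [h]
    · simp [h]
  simp only [key]

theorem mem_V0 {r k k' e : ℕ} : e ∈ (colV r k k').1 ↔ e ≤ 4 * tt r := by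
  unfold colV
  simp only [List.mem_range]
  omega

theorem mem_V1 {r k k' e : ℕ} : e ∈ (colV r k k').2 ↔
    e < 6 ∨ (∃ l < r, ∃ d < 6, ¬ (l = k ∧ d = 3) ∧ ¬ (l = k' ∧ d = 2) ∧ e = oo r l + d) ∨
      (tt r ≤ e ∧ e ≤ 4 * tt r) := by
  unfold colV
  simp only [List.mem_append, List.mem_flatMap, List.mem_range, List.mem_map, List.mem_filter,
    mem_top, Bool.and_eq_true, Bool.not_eq_true', Bool.and_eq_false_iff, decide_eq_false_iff_not]
  constructor
  · rintro (h | ⟨l, hl, d, ⟨hd, h1, h2⟩, rfl⟩ | h)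
    · exact Or.inl h
    · exact Or.inr (Or.inl ⟨l, hl, d, hd, by tauto, by tauto, rfl⟩)
    · exact Or.inr (Or.inr h)
  · rintro (h | ⟨l, hl, d, hd, h1, h2, rfl⟩ | h)
    · exact Or.inl h
    · exact Or.inr (Or.inl ⟨l, hl, d, ⟨hd, by tauto, by tauto⟩, rfl⟩)
    · exact Or.inr (Or.inr h)

/-! ### Solutions from a selection -/

/-- the first unknown set -/
def X0 (r : ℕ) : Set ℕ := {x | x = 0 ∨ (2 ≤ x ∧ x ≤ 2 * tt r)}

/-- the second unknown set, for the set `S` of selected occurrences -/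
def X1 (r : ℕ) (S : ℕ → Prop) : Set ℕ :=
  {x | x = 0 ∨ x = 1 ∨ (∃ q < r, S q ∧ x = oo r q) ∨ (tt r ≤ x ∧ x ≤ 2 * tt r)}

theorem full_row {r : ℕ} {Y : Set ℕ} (h0 : 0 ∈ Y) (h1 : 1 ∈ Y)
    (h2 : ∀ y, tt r ≤ y → y ≤ 2 * tt r → y ∈ Y) (h3 : ∀ y ∈ Y, y ≤ 2 * tt r) (e : ℕ) :
    e ≤ 4 * tt r ↔ ∃ x ∈ X0 r, ∃ y ∈ Y, x + y = e := by
  have ht : 64 ≤ tt r := by unfold tt; omega
  constructor
  · intro he
    by_cases h : e ≤ 2 * tt r
    · by_cases h' : e = 1
      · exact ⟨0, Or.inl rfl, 1, h1, by omega⟩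
      · exact ⟨e, by
          change e = 0 ∨ (2 ≤ e ∧ e ≤ 2 * tt r)
          omega, 0, h0, by omega⟩
    · refine ⟨e / 2, Or.inr (by omega), e - e / 2, h2 _ (by omega) (by omega), by omega⟩
  · rintro ⟨x, hx, y, hy, rfl⟩
    have := h3 y hy
    rcases hx with hx | hx <;> omega

theorem sol_F (r : ℕ) (S : ℕ → Prop) : ∃ Y : Set ℕ,
    (∀ e, e ∈ (colF r).1 ↔ ∃ x ∈ X0 r, ∃ y ∈ Y, x + y = e) ∧
    ∀ e, e ∈ (colF r).2 ↔ ∃ x ∈ X1 r S, ∃ y ∈ Y, x + y = e := by
  have ht : 64 ≤ tt r := by unfold tt; omega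
  refine ⟨{y | y = 0 ∨ (∃ k < r, y = oo r k) ∨ (tt r ≤ y ∧ y ≤ 2 * tt r)}, ?_, ?_⟩
  · intro e
    rw [mem_F0]
    constructor
    · intro he
      by_cases h : e ≤ 2 * tt r
      · exact ⟨e, by
          change e = 0 ∨ (2 ≤ e ∧ e ≤ 2 * tt r)
          omega, 0, Or.inl rfl, by omega⟩
      · exact ⟨e / 2, Or.inr (by omega), e - e / 2, Or.inr (Or.inr (by omega)), by omega⟩
    · rintro ⟨x, hx, y, hy, rfl⟩
      have h1 : x = 0 ∨ (2 ≤ x ∧ x ≤ 2 * tt r) := hx
      have h2 : y = 0 ∨ (2 ≤ y ∧ y ≤ 2 * tt r) := by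
        rcases hy with hy | ⟨k, hk, rfl⟩ | hy
        · exact Or.inl hy
        · unfold oo tt
          omega
        · omega
      omega
  · intro e
    rw [mem_F1]
    constructor
    · rintro (rfl | rfl | ⟨k, hk, rfl | rfl⟩ | he)
      · exact ⟨0, Or.inl rfl, 0, Or.inl rfl, rfl⟩
      · exact ⟨1, Or.inr (Or.inl rfl), 0, Or.inl rfl, rfl⟩
      · exact ⟨0, Or.inl rfl, _, Or.inr (Or.inl ⟨k, hk, rfl⟩), by omega⟩
      · exact ⟨1, Or.inr (Or.inl rfl), _, Or.inr (Or.inl ⟨k, hk, rfl⟩), by omega⟩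
      · by_cases h : e ≤ 2 * tt r
        · exact ⟨0, Or.inl rfl, e, Or.inr (Or.inr (by omega)), by omega⟩
        · exact ⟨e / 2, Or.inr (Or.inr (Or.inr (by omega))), e - e / 2,
            Or.inr (Or.inr (by omega)), by omega⟩
    · rintro ⟨x, hx, y, hy, rfl⟩
      rcases hx with rfl | rfl | ⟨q, hq, hS, rfl⟩ | hx <;> rcases hy with rfl | ⟨k, hk, rfl⟩ | hy
      · exact Or.inl rfl
      · exact Or.inr (Or.inr (Or.inl ⟨k, hk, by omega⟩))
      · exact Or.inr (Or.inr (Or.inr (by omega)))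
      · exact Or.inr (Or.inl rfl)
      · exact Or.inr (Or.inr (Or.inl ⟨k, hk, by omega⟩))
      · exact Or.inr (Or.inr (Or.inr (by omega)))
      · exact Or.inr (Or.inr (Or.inl ⟨q, hq, by omega⟩))
      · exact Or.inr (Or.inr (Or.inr (by unfold oo tt; omega)))
      · exact Or.inr (Or.inr (Or.inr (by unfold oo; unfold tt at *; omega)))
      · exact Or.inr (Or.inr (Or.inr (by omega)))
      · exact Or.inr (Or.inr (Or.inr (by unfold oo; unfold tt at *; omega)))
      · exact Or.inr (Or.inr (Or.inr (by omega)))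

theorem sol_C {r : ℕ} {S : ℕ → Prop} {C : List ℕ} (hC : ∀ k ∈ C, k < r)
    (hS : ∃ k ∈ C, S k) : ∃ Y : Set ℕ,
    (∀ e, e ∈ (colC r C).1 ↔ ∃ x ∈ X0 r, ∃ y ∈ Y, x + y = e) ∧
    ∀ e, e ∈ (colC r C).2 ↔ ∃ x ∈ X1 r S, ∃ y ∈ Y, x + y = e := by
  have ht : 64 ≤ tt r := by unfold tt; omega
  refine ⟨{y | y = 0 ∨ y = 1 ∨ (∃ k < r, y = oo r k) ∨ (∃ k ∈ C, y = yy r k) ∨
    (∃ k ∈ C, ∃ l < r, l ≠ k ∧ y = yy r k + oo r l) ∨ (tt r ≤ y ∧ y ≤ 2 * tt r)}, ?_, ?_⟩
  · intro e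
    rw [mem_C0]
    apply full_row
    · exact Or.inl rfl
    · exact Or.inr (Or.inl rfl)
    · exact fun y h1 h2 => Or.inr (Or.inr (Or.inr (Or.inr (Or.inr ⟨h1, h2⟩))))
    · rintro y (rfl | rfl | ⟨k, hk, rfl⟩ | ⟨k, hk, rfl⟩ | ⟨k, hk, l, hl, -, rfl⟩ | hy)
      · omega
      · omega
      · unfold oo tt
        omega
      · have := hC k hk
        unfold yy tt
        omega
      · have := hC k hk
        unfold yy oo tt
        omega
      · omega
  · intro e
    rw [mem_C1]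
    constructor
    · rintro (he | ⟨k, hk, rfl | rfl⟩ | ⟨k, hk, rfl | rfl⟩ | ⟨k, hk, l, hl, h⟩ | he)
      · have : e = 0 ∨ e = 1 ∨ e = 2 := by omega
        rcases this with rfl | rfl | rfl
        · exact ⟨0, Or.inl rfl, 0, Or.inl rfl, rfl⟩
        · exact ⟨1, Or.inr (Or.inl rfl), 0, Or.inl rfl, rfl⟩
        · exact ⟨1, Or.inr (Or.inl rfl), 1, Or.inr (Or.inl rfl), rfl⟩
      · exact ⟨0, Or.inl rfl, _, Or.inr (Or.inr (Or.inl ⟨k, hk, rfl⟩)), by omega⟩
      · exact ⟨1, Or.inr (Or.inl rfl), _, Or.inr (Or.inr (Or.inl ⟨k, hk, rfl⟩)), by omega⟩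
      · exact ⟨0, Or.inl rfl, _, Or.inr (Or.inr (Or.inr (Or.inl ⟨k, hk, rfl⟩))), by omega⟩
      · exact ⟨1, Or.inr (Or.inl rfl), _, Or.inr (Or.inr (Or.inr (Or.inl ⟨k, hk, rfl⟩))), by omega⟩
      · by_cases hlk : l = k
        · obtain ⟨q, hq, hSq⟩ := hS
          refine ⟨oo r q, Or.inr (Or.inr (Or.inl ⟨q, hC q hq, hSq, rfl⟩)), yy r q,
            Or.inr (Or.inr (Or.inr (Or.inl ⟨q, hq, rfl⟩))), ?_⟩
          have h1 := hC q hq
          have h2 := hC k hk
          have h3 : e = yy r k + oo r l := by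
            rcases h with h | h
            · exact h
            · exact absurd hlk h.1
          subst hlk
          unfold oo yy at *
          omega
        · rcases h with rfl | ⟨-, rfl⟩
          · exact ⟨0, Or.inl rfl, _, Or.inr (Or.inr (Or.inr (Or.inr (Or.inl ⟨k, hk, l, hl, hlk, rfl⟩)))),
              by omega⟩
          · exact ⟨1, Or.inr (Or.inl rfl), _,
              Or.inr (Or.inr (Or.inr (Or.inr (Or.inl ⟨k, hk, l, hl, hlk, rfl⟩)))), by omega⟩
      · by_cases h : e ≤ 2 * tt r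
        · exact ⟨0, Or.inl rfl, e, Or.inr (Or.inr (Or.inr (Or.inr (Or.inr (by omega))))), by omega⟩
        · exact ⟨e / 2, Or.inr (Or.inr (Or.inr (by omega))), e - e / 2,
            Or.inr (Or.inr (Or.inr (Or.inr (Or.inr (by omega))))), by omega⟩
    · rintro ⟨x, hx, y, hy, rfl⟩
      have hy2 : y ≤ 2 * tt r := by
        rcases hy with rfl | rfl | ⟨k, hk, rfl⟩ | ⟨k, hk, rfl⟩ | ⟨k, hk, l, hl, -, rfl⟩ | hy
        · omega
        · omega
        · unfold oo tt
          omega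
        · have := hC k hk
          unfold yy tt
          omega
        · have := hC k hk
          unfold yy oo tt
          omega
        · omega
      by_cases hbig : tt r ≤ x + y
      · refine Or.inr (Or.inr (Or.inr (Or.inr ⟨hbig, ?_⟩)))
        rcases hx with rfl | rfl | ⟨q, hq, -, rfl⟩ | hx
        · omega
        · omega
        · have : oo r q ≤ 2 * tt r := by unfold oo tt; omega
          omega
        · omega
      rcases hx with rfl | rfl | ⟨q, hq, hSq, rfl⟩ | hx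
      · rcases hy with rfl | rfl | ⟨k, hk, rfl⟩ | ⟨k, hk, rfl⟩ | ⟨k, hk, l, hl, hlk, rfl⟩ | hy
        · exact Or.inl (by omega)
        · exact Or.inl (by omega)
        · exact Or.inr (Or.inl ⟨k, hk, by omega⟩)
        · exact Or.inr (Or.inr (Or.inl ⟨k, hk, by omega⟩))
        · exact Or.inr (Or.inr (Or.inr (Or.inl ⟨k, hk, l, hl, by omega⟩)))
        · omega
      · rcases hy with rfl | rfl | ⟨k, hk, rfl⟩ | ⟨k, hk, rfl⟩ | ⟨k, hk, l, hl, hlk, rfl⟩ | hy
        · exact Or.inl (by omega)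
        · exact Or.inl (by omega)
        · exact Or.inr (Or.inl ⟨k, hk, by omega⟩)
        · exact Or.inr (Or.inr (Or.inl ⟨k, hk, by omega⟩))
        · exact Or.inr (Or.inr (Or.inr (Or.inl ⟨k, hk, l, hl, by omega⟩)))
        · omega
      · rcases hy with rfl | rfl | ⟨k, hk, rfl⟩ | ⟨k, hk, rfl⟩ | ⟨k, hk, l, hl, hlk, rfl⟩ | hy
        · exact Or.inr (Or.inl ⟨q, hq, by omega⟩)
        · exact Or.inr (Or.inl ⟨q, hq, by omega⟩)
        · exfalso
          apply hbig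
          unfold oo tt
          omega
        · exact Or.inr (Or.inr (Or.inr (Or.inl ⟨k, hk, q, hq, by omega⟩)))
        · exfalso
          apply hbig
          have := hC k hk
          unfold yy oo tt
          omega
        · omega
      · omega

theorem sol_V {r k k' : ℕ} {S : ℕ → Prop} (hk : k < r) (hk' : k' < r) (hne : k ≠ k')
    (hS : ¬ (S k ∧ S k')) : ∃ Y : Set ℕ,
    (∀ e, e ∈ (colV r k k').1 ↔ ∃ x ∈ X0 r, ∃ y ∈ Y, x + y = e) ∧
    ∀ e, e ∈ (colV r k k').2 ↔ ∃ x ∈ X1 r S, ∃ y ∈ Y, x + y = e := by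
  classical
  have ht : 64 ≤ tt r := by unfold tt; omega
  refine ⟨{y | y = 0 ∨ y = 1 ∨ y = 4 ∨ (¬ S k ∧ y = 3) ∨ (S k ∧ y = 2) ∨
    (∃ l < r, ∃ d < 5, ¬ (l = k ∧ (d = 3 ∨ d = 2)) ∧ ¬ (l = k' ∧ (d = 2 ∨ d = 1)) ∧
      y = oo r l + d) ∨ (tt r ≤ y ∧ y ≤ 2 * tt r)}, ?_, ?_⟩
  · intro e
    rw [mem_V0]
    apply full_row
    · exact Or.inl rfl
    · exact Or.inr (Or.inl rfl)
    · exact fun y h1 h2 => Or.inr (Or.inr (Or.inr (Or.inr (Or.inr (Or.inr ⟨h1, h2⟩)))))
    · rintro y (rfl | rfl | rfl | ⟨-, rfl⟩ | ⟨-, rfl⟩ | ⟨l, hl, d, hd, -, -, rfl⟩ | hy)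
      · omega
      · omega
      · omega
      · omega
      · omega
      · unfold oo tt
        omega
      · omega
  · intro e
    rw [mem_V1]
    constructor
    · rintro (he | ⟨l, hl, d, hd, h1, h2, rfl⟩ | he)
      · have : e = 0 ∨ e = 1 ∨ e = 2 ∨ e = 3 ∨ e = 4 ∨ e = 5 := by omega
        rcases this with rfl | rfl | rfl | rfl | rfl | rfl
        · exact ⟨0, Or.inl rfl, 0, Or.inl rfl, rfl⟩
        · exact ⟨1, Or.inr (Or.inl rfl), 0, Or.inl rfl, rfl⟩
        · exact ⟨1, Or.inr (Or.inl rfl), 1, Or.inr (Or.inl rfl), rfl⟩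
        · by_cases h : S k
          · exact ⟨1, Or.inr (Or.inl rfl), 2, Or.inr (Or.inr (Or.inr (Or.inr (Or.inl ⟨h, rfl⟩)))), rfl⟩
          · exact ⟨0, Or.inl rfl, 3, Or.inr (Or.inr (Or.inr (Or.inl ⟨h, rfl⟩))), rfl⟩
        · exact ⟨0, Or.inl rfl, 4, Or.inr (Or.inr (Or.inl rfl)), rfl⟩
        · exact ⟨1, Or.inr (Or.inl rfl), 4, Or.inr (Or.inr (Or.inl rfl)), rfl⟩
      · by_cases hd0 : d < 5 ∧ ¬ (l = k ∧ (d = 3 ∨ d = 2)) ∧ ¬ (l = k' ∧ (d = 2 ∨ d = 1))
        · exact ⟨0, Or.inl rfl, oo r l + d, Or.inr (Or.inr (Or.inr (Or.inr (Or.inr (Or.inl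
            ⟨l, hl, d, hd0.1, hd0.2.1, hd0.2.2, rfl⟩))))), by omega⟩
        · refine ⟨1, Or.inr (Or.inl rfl), oo r l + (d - 1), Or.inr (Or.inr (Or.inr (Or.inr (Or.inr
            (Or.inl ⟨l, hl, d - 1, by omega, by omega, by omega, rfl⟩))))), by omega⟩
      · by_cases h : e ≤ 2 * tt r
        · exact ⟨0, Or.inl rfl, e, Or.inr (Or.inr (Or.inr (Or.inr (Or.inr (Or.inr (by omega)))))),
            by omega⟩
        · exact ⟨e / 2, Or.inr (Or.inr (Or.inr (by omega))), e - e / 2,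
            Or.inr (Or.inr (Or.inr (Or.inr (Or.inr (Or.inr (by omega)))))), by omega⟩
    · rintro ⟨x, hx, y, hy, rfl⟩
      have hy2 : y ≤ 2 * tt r := by
        rcases hy with rfl | rfl | rfl | ⟨-, rfl⟩ | ⟨-, rfl⟩ | ⟨l, hl, d, hd, -, -, rfl⟩ | hy
        · omega
        · omega
        · omega
        · omega
        · omega
        · unfold oo tt
          omega
        · omega
      by_cases hbig : tt r ≤ x + y
      · refine Or.inr (Or.inr ⟨hbig, ?_⟩)
        rcases hx with rfl | rfl | ⟨q, hq, -, rfl⟩ | hx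
        · omega
        · omega
        · have : oo r q ≤ 2 * tt r := by unfold oo tt; omega
          omega
        · omega
      rcases hx with rfl | rfl | ⟨q, hq, hSq, rfl⟩ | hx
      · rcases hy with rfl | rfl | rfl | ⟨-, rfl⟩ | ⟨-, rfl⟩ | ⟨l, hl, d, hd, h1, h2, rfl⟩ | hy
        · exact Or.inl (by omega)
        · exact Or.inl (by omega)
        · exact Or.inl (by omega)
        · exact Or.inl (by omega)
        · exact Or.inl (by omega)
        · exact Or.inr (Or.inl ⟨l, hl, d, by omega, by omega, by omega, by omega⟩)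
        · omega
      · rcases hy with rfl | rfl | rfl | ⟨-, rfl⟩ | ⟨-, rfl⟩ | ⟨l, hl, d, hd, h1, h2, rfl⟩ | hy
        · exact Or.inl (by omega)
        · exact Or.inl (by omega)
        · exact Or.inl (by omega)
        · exact Or.inl (by omega)
        · exact Or.inl (by omega)
        · exact Or.inr (Or.inl ⟨l, hl, d + 1, by omega, by omega, by omega, by omega⟩)
        · omega
      · rcases hy with rfl | rfl | rfl | ⟨hk3, rfl⟩ | ⟨hk2, rfl⟩ | ⟨l, hl, d, hd, h1, h2, rfl⟩ | hy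
        · exact Or.inr (Or.inl ⟨q, hq, 0, by omega, by omega, by omega, by omega⟩)
        · exact Or.inr (Or.inl ⟨q, hq, 1, by omega, by omega, by omega, by omega⟩)
        · exact Or.inr (Or.inl ⟨q, hq, 4, by omega, by omega, by omega, by omega⟩)
        · have hqk : q ≠ k := by
            rintro rfl
            exact hk3 hSq
          exact Or.inr (Or.inl ⟨q, hq, 3, by omega, by omega, by omega, by omega⟩)
        · have hqk : q ≠ k' := by
            rintro rfl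
            exact hS ⟨hk2, hSq⟩
          exact Or.inr (Or.inl ⟨q, hq, 2, by omega, by omega, by omega, by omega⟩)
        · exfalso
          apply hbig
          unfold oo tt
          omega
        · omega
      · omega

/-! ### Selections from solutions -/

/-- What the frame column tells about the second unknown set. -/
theorem frame {r : ℕ} {A B Y : Set ℕ} (h0 : ∀ e, e ∈ (colF r).1 ↔ ∃ x ∈ A, ∃ y ∈ Y, x + y = e)
    (h1 : ∀ e, e ∈ (colF r).2 ↔ ∃ x ∈ B, ∃ y ∈ Y, x + y = e) :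
    0 ∈ B ∧ 1 ∈ B ∧ ∀ x ∈ B, x ∈ (colF r).2 := by
  have a0 : (0 : ℕ) ∈ (colF r).1 := mem_F0.2 (Or.inl rfl)
  obtain ⟨x, hx, y, hy, hxy⟩ := (h0 0).1 a0
  obtain ⟨rfl, rfl⟩ : x = 0 ∧ y = 0 := by omega
  have a1 : (1 : ℕ) ∉ Y := by
    intro h
    have := (h0 1).2 ⟨0, hx, 1, h, rfl⟩
    rw [mem_F0] at this
    omega
  have b0 : (0 : ℕ) ∈ (colF r).2 := mem_F1.2 (Or.inl rfl)
  obtain ⟨x, hx', y, hy', hxy⟩ := (h1 0).1 b0
  obtain ⟨rfl, rfl⟩ : x = 0 ∧ y = 0 := by omega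
  have b1 : (1 : ℕ) ∈ (colF r).2 := mem_F1.2 (Or.inr (Or.inl rfl))
  obtain ⟨x, hx1, y, hy1, hxy⟩ := (h1 1).1 b1
  have : x = 1 := by
    rcases (show (x = 0 ∧ y = 1) ∨ (x = 1 ∧ y = 0) by omega) with ⟨rfl, rfl⟩ | ⟨rfl, rfl⟩
    · exact absurd hy1 a1
    · rfl
  subst this
  exact ⟨hx', hx1, fun x hx => (h1 x).2 ⟨x, hx, 0, hy, by omega⟩⟩

theorem clause {r : ℕ} {B Y : Set ℕ} {C : List ℕ} (hC : ∀ k ∈ C, k < r) (hne : C ≠ [])
    (hB0 : 0 ∈ B) (hB1 : 1 ∈ B) (hB : ∀ x ∈ B, x ∈ (colF r).2)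
    (h : ∀ e, e ∈ (colC r C).2 ↔ ∃ x ∈ B, ∃ y ∈ Y, x + y = e) : ∃ k ∈ C, oo r k ∈ B := by
  obtain ⟨k, hk⟩ := List.exists_mem_of_ne_nil _ hne
  have hkr := hC k hk
  have he : 48 * r + 48 ∈ (colC r C).2 := by
    rw [mem_C1]
    refine Or.inr (Or.inr (Or.inr (Or.inl ⟨k, hk, k, hkr, Or.inl ?_⟩)))
    unfold yy oo
    omega
  obtain ⟨x, hx, y, hy, hxy⟩ := (h _).1 he
  have y0 : y ∈ (colC r C).2 := (h _).2 ⟨0, hB0, y, hy, by omega⟩
  have y1 : y + 1 ∈ (colC r C).2 := (h _).2 ⟨1, hB1, y, hy, by omega⟩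
  rw [mem_C1] at y0 y1
  have hx' := hB x hx
  rw [mem_F1] at hx'
  rcases hx' with rfl | rfl | ⟨l, hl, hxl⟩ | hx'
  · exfalso
    rcases y1 with y1 | ⟨a, ha, y1⟩ | ⟨a, ha, y1⟩ | ⟨a, ha, b, hb, y1⟩ | y1
    · omega
    · unfold oo at y1
      omega
    · have := hC a ha
      unfold yy at y1
      omega
    · have := hC a ha
      unfold yy oo at y1
      omega
    · unfold tt at y1
      omega
  · exfalso
    rcases y0 with y0 | ⟨a, ha, y0⟩ | ⟨a, ha, y0⟩ | ⟨a, ha, b, hb, y0⟩ | y0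
    · omega
    · unfold oo at y0
      omega
    · have := hC a ha
      unfold yy at y0
      omega
    · have := hC a ha
      unfold yy oo at y0
      omega
    · unfold tt at y0
      omega
  · rcases y0 with y0 | ⟨a, ha, y0⟩ | ⟨a, ha, y0⟩ | ⟨a, ha, b, hb, y0⟩ | y0
    · exfalso
      unfold oo at hxl
      omega
    · exfalso
      unfold oo at hxl y0
      omega
    · have har := hC a ha
      have hla : x = oo r l ∧ l = a := by
        unfold oo at hxl ⊢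
        unfold yy at y0
        omega
      obtain ⟨rfl, rfl⟩ := hla
      exact ⟨l, ha, hx⟩
    · exfalso
      have := hC a ha
      unfold oo at hxl
      unfold yy oo at y0
      omega
    · exfalso
      unfold oo at hxl
      unfold tt at y0
      omega
  · exfalso
    unfold tt at hx'
    omega

theorem forbid {r k k' : ℕ} {B Y : Set ℕ} (hk : k < r) (hk' : k' < r)
    (hB : ∀ x ∈ B, x ∈ (colF r).2)
    (h : ∀ e, e ∈ (colV r k k').2 ↔ ∃ x ∈ B, ∃ y ∈ Y, x + y = e) :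
    ¬ (oo r k ∈ B ∧ oo r k' ∈ B) := by
  rintro ⟨hk1, hk2⟩
  have h3 : 3 ∈ (colV r k k').2 := mem_V1.2 (Or.inl (by omega))
  obtain ⟨x, hx, y, hy, hxy⟩ := (h _).1 h3
  have hx' := hB x hx
  rw [mem_F1] at hx'
  have hx2 : x = 0 ∨ x = 1 := by
    rcases hx' with h | h | ⟨l, hl, h⟩ | h
    · exact Or.inl h
    · exact Or.inr h
    · unfold oo at h
      omega
    · unfold tt at h
      omega
  rcases hx2 with rfl | rfl
  · have : y = 3 := by omega
    subst this
    have h4 : oo r k + 3 ∈ (colV r k k').2 := (h _).2 ⟨_, hk1, 3, hy, rfl⟩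
    rw [mem_V1] at h4
    rcases h4 with h4 | ⟨l, hl, d, hd, h5, h6, h7⟩ | h4
    · unfold oo at h4
      omega
    · unfold oo at h7
      omega
    · unfold oo tt at h4
      omega
  · have : y = 2 := by omega
    subst this
    have h4 : oo r k' + 2 ∈ (colV r k k').2 := (h _).2 ⟨_, hk2, 2, hy, rfl⟩
    rw [mem_V1] at h4
    rcases h4 with h4 | ⟨l, hl, d, hd, h5, h6, h7⟩ | h4
    · unfold oo at h4
      omega
    · unfold oo at h7
      omega
    · unfold oo tt at h4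
      omega

end Pool.Agent.R553.FC
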