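import Mathlib

/-!
# Factorization of finite languages: definitions
-/

namespace Pool.Agent.R553.FC

/-- The finite language given by a list of words. -/
def langOf (L : List (List ℕ)) : Language ℕ := {w | w ∈ L}

/-- `w` is a word over the alphabet `X`. -/
def Over (X : List ℕ) (w : List ℕ) : Prop := ∀ a ∈ w, a ∈ X

/-- An input consists of a nonempty alphabet `I.1` (a list of letters, which are natural numbers)
and of a nonempty list `I.2` of words over this alphabet. -/
def IsInput (I : List ℕ × List (List ℕ)) : Prop :=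
  I.1 ≠ [] ∧ I.2 ≠ [] ∧ ∀ w ∈ I.2, Over I.1 w

/-- `L₁, L₂` is a factorization of the finite language listed by `L`: both are finite sets of words
over `X` and the language is the product `L₁ * L₂` (the set of all `u ++ v` with `u ∈ L₁`,
`v ∈ L₂`). -/
def IsFactorization (X : List ℕ) (L : List (List ℕ)) (L₁ L₂ : Language ℕ) : Prop :=
  Set.Finite (L₁ : Set (List ℕ)) ∧ Set.Finite (L₂ : Set (List ℕ)) ∧ (∀ w ∈ L₁, Over X w) ∧
    (∀ w ∈ L₂, Over X w) ∧ langOf L = L₁ * L₂

/-- The decision problem FACT: the input is an alphabet and a list of words over it; is there a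
factorization with `L₁ ≠ {ε}` and `L₂ ≠ {ε}`? -/
def FACT (I : List ℕ × List (List ℕ)) : Prop :=
  IsInput I ∧ ∃ L₁ L₂ : Language ℕ, IsFactorization I.1 I.2 L₁ L₂ ∧
    L₁ ≠ ({[]} : Set (List ℕ)) ∧ L₂ ≠ ({[]} : Set (List ℕ))

end Pool.Agent.R553.FC
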