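import Pool.Agent.R553.FC.Cols
import Pool.Agent.R542.Base
import Pool.Agent.H671R2.PolyAuto

/-!
# The reduction from 3SAT to the factorization problem
-/

namespace Pool.Agent.R553.FC

open Pool.Agent.NPC Pool.Agent.NPC.R542

/-- The occurrences `k` and `k'` are a positive and a negative occurrence of one variable. -/
def contr (φ : F3) (k k' : ℕ) : Bool :=
  (lit φ k).1 && (!(lit φ k').1 && decide ((lit φ k).2 = (lit φ k').2))

/-- the sumset equations of a formula -/
def cols (φ : F3) : List (List ℕ × List ℕ) :=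
  colF (3 * φ.length) ::
    ((List.range φ.length).map (fun j => colC (3 * φ.length) [3 * j, 3 * j + 1, 3 * j + 2]) ++
      (List.range (3 * φ.length)).flatMap fun k =>
        ((List.range (3 * φ.length)).filter fun k' => contr φ k k').map fun k' =>
          colV (3 * φ.length) k k')

theorem contr_iff {φ : F3} {k k' : ℕ} : contr φ k k' = true ↔
    (lit φ k).1 = true ∧ (lit φ k').1 = false ∧ (lit φ k).2 = (lit φ k').2 := by
  unfold contr
  simp

theorem mem_cols {φ : F3} {c : List ℕ × List ℕ} : c ∈ cols φ ↔ c = colF (3 * φ.length) ∨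
    (∃ j < φ.length, c = colC (3 * φ.length) [3 * j, 3 * j + 1, 3 * j + 2]) ∨
    ∃ k < 3 * φ.length, ∃ k' < 3 * φ.length, contr φ k k' = true ∧
      c = colV (3 * φ.length) k k' := by
  unfold cols
  simp only [List.mem_cons, List.mem_append, List.mem_map, List.mem_flatMap, List.mem_filter,
    List.mem_range]
  constructor
  · rintro (h | ⟨j, hj, rfl⟩ | ⟨k, hk, k', ⟨hk', h⟩, rfl⟩)
    · exact Or.inl h
    · exact Or.inr (Or.inl ⟨j, hj, rfl⟩)
    · exact Or.inr (Or.inr ⟨k, hk, k', hk', h, rfl⟩)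
  · rintro (h | ⟨j, hj, rfl⟩ | ⟨k, hk, k', hk', h, rfl⟩)
    · exact Or.inl h
    · exact Or.inr (Or.inl ⟨j, hj, rfl⟩)
    · exact Or.inr (Or.inr ⟨k, hk, k', ⟨hk', h⟩, rfl⟩)

/-- A selection of literal occurrences: one in each clause, without contradiction. -/
def Sel (φ : F3) (S : ℕ → Prop) : Prop :=
  (∀ j < φ.length, ∃ k ∈ [3 * j, 3 * j + 1, 3 * j + 2], S k) ∧
    ∀ k < 3 * φ.length, ∀ k' < 3 * φ.length, contr φ k k' = true → ¬ (S k ∧ S k')

theorem solvable_iff (φ : F3) : Solvable (cols φ) ↔ ∃ S, Sel φ S := by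
  constructor
  · rintro ⟨A, B, h⟩
    obtain ⟨Y, h0, h1⟩ := h _ (mem_cols.2 (Or.inl rfl))
    obtain ⟨hB0, hB1, hB⟩ := frame h0 h1
    refine ⟨fun k => oo (3 * φ.length) k ∈ B, ?_, ?_⟩
    · intro j hj
      obtain ⟨Y, -, h2⟩ := h _ (mem_cols.2 (Or.inr (Or.inl ⟨j, hj, rfl⟩)))
      refine clause ?_ (by simp) hB0 hB1 hB h2
      intro k hk
      simp only [List.mem_cons, List.not_mem_nil, or_false] at hk
      omega
    · intro k hk k' hk' hc
      obtain ⟨Y, -, h2⟩ := h _ (mem_cols.2 (Or.inr (Or.inr ⟨k, hk, k', hk', hc, rfl⟩)))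
      exact forbid hk hk' hB h2
  · rintro ⟨S, hS1, hS2⟩
    refine ⟨X0 (3 * φ.length), X1 (3 * φ.length) S, ?_⟩
    intro c hc
    rcases mem_cols.1 hc with rfl | ⟨j, hj, rfl⟩ | ⟨k, hk, k', hk', hkk, rfl⟩
    · exact sol_F _ _
    · refine sol_C ?_ (hS1 j hj)
      intro k hk
      simp only [List.mem_cons, List.not_mem_nil, or_false] at hk
      omega
    · refine sol_V hk hk' ?_ (hS2 k hk k' hk' hkk)
      rintro rfl
      have := contr_iff.1 hkk
      rw [this.1] at this
      exact absurd this.2.1 (by simp)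

theorem lit_clause (φ : F3) (j : ℕ) (hj : j < φ.length) :
    lit φ (3 * j) = φ[j].1 ∧ lit φ (3 * j + 1) = φ[j].2.1 ∧ lit φ (3 * j + 2) = φ[j].2.2 := by
  have hg : φ.getD j ((true, 0), (true, 0), (true, 0)) = φ[j] := by simp [hj]
  have e0 : 3 * j / 3 = j := by omega
  have e1 : (3 * j + 1) / 3 = j := by omega
  have e2 : (3 * j + 2) / 3 = j := by omega
  have f0 : 3 * j % 3 = 0 := by omega
  have f1 : (3 * j + 1) % 3 = 1 := by omega
  have f2 : (3 * j + 2) % 3 = 2 := by omega
  unfold lit
  simp only [e0, e1, e2, f0, f1, f2, hg]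
  simp

theorem sel_iff (φ : F3) : (∃ S, Sel φ S) ↔ SAT3 φ := by
  classical
  constructor
  · rintro ⟨S, h1, h2⟩
    refine ⟨fun v => decide (∃ k < 3 * φ.length, S k ∧ lit φ k = (true, v)), ?_⟩
    intro c hc
    obtain ⟨j, hj, rfl⟩ := List.mem_iff_getElem.1 hc
    obtain ⟨l0, l1, l2⟩ := lit_clause φ j hj
    have key : ∀ k, k < 3 * φ.length → S k →
        decide (∃ q < 3 * φ.length, S q ∧ lit φ q = (true, (lit φ k).2)) = (lit φ k).1 := by
      intro k hk hSk
      cases hb : (lit φ k).1 with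
      | true =>
        rw [decide_eq_true_eq]
        exact ⟨k, hk, hSk, by rw [← hb]⟩
      | false =>
        rw [decide_eq_false_iff_not]
        rintro ⟨q, hq, hSq, hl⟩
        refine h2 q hq k hk ?_ ⟨hSq, hSk⟩
        rw [contr_iff, hl]
        exact ⟨rfl, hb, rfl⟩
    obtain ⟨k, hk, hSk⟩ := h1 j hj
    simp only [List.mem_cons, List.not_mem_nil, or_false] at hk
    rcases hk with rfl | rfl | rfl
    · left
      have := key _ (by omega) hSk
      rw [l0] at this
      exact this
    · right; left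
      have := key _ (by omega) hSk
      rw [l1] at this
      exact this
    · right; right
      have := key _ (by omega) hSk
      rw [l2] at this
      exact this
  · rintro ⟨τ, hτ⟩
    refine ⟨fun k => τ (lit φ k).2 = (lit φ k).1, ?_, ?_⟩
    · intro j hj
      obtain ⟨l0, l1, l2⟩ := lit_clause φ j hj
      rcases hτ φ[j] (List.getElem_mem hj) with h | h | h
      · exact ⟨3 * j, by simp, by simp only; rw [l0]; exact h⟩
      · exact ⟨3 * j + 1, by simp, by simp only; rw [l1]; exact h⟩
      · exact ⟨3 * j + 2, by simp, by simp only; rw [l2]; exact h⟩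
    · intro k _ k' _ hc
      obtain ⟨h1, h2, h3⟩ := contr_iff.1 hc
      rintro ⟨h4, h5⟩
      rw [h1, h3, h5, h2] at h4
      exact absurd h4 (by simp)

theorem red_correct (φ : F3) : SAT3 φ ↔ FACT (inst (cols φ)) := by
  rw [fact_iff, solvable_iff, sel_iff]
  · unfold cols
    simp
  · intro c hc
    rcases mem_cols.1 hc with rfl | ⟨j, hj, rfl⟩ | ⟨k, hk, k', hk', hkk, rfl⟩
    · simp [colF]
    · simp [colC]
    · simp [colV]

/-! ### Polynomial time -/

/-- The exponents of a system are at most `B`. -/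
def Bd (B : ℕ) (C : List (List ℕ × List ℕ)) : Prop :=
  ∀ c ∈ C, (∀ e ∈ c.1, e ≤ B) ∧ ∀ e ∈ c.2, e ≤ B

/-- the words, with exponents cut off at `B` -/
def wordB (B i e j : ℕ) : List ℕ := i :: ((List.range (min e B)).map (fun _ => 2) ++ [3 + j])

theorem wordB_eq {B i e j : ℕ} (h : e ≤ B) : wordB B i e j = word i e j := by
  unfold wordB word
  rw [Nat.min_eq_left h]
  congr 2
  simp

def wordsB (B : ℕ) (C : List (List ℕ × List ℕ)) : List (List ℕ) :=
  (List.range C.length).flatMap fun j =>
    (C.getD j ([], [])).1.map (fun e => wordB B 0 e j) ++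
      (C.getD j ([], [])).2.map (fun e => wordB B 1 e j)

theorem wordsB_eq {B : ℕ} {C : List (List ℕ × List ℕ)} (h : Bd B C) : wordsB B C = words C := by
  unfold wordsB words
  refine List.flatMap_congr fun j hj => ?_
  rw [List.mem_range] at hj
  rw [List.getD_eq_getElem _ _ hj]
  have := h _ (List.getElem_mem hj)
  congr 1
  · exact List.map_congr_left fun e he => wordB_eq (this.1 e he)
  · exact List.map_congr_left fun e he => wordB_eq (this.2 e he)

theorem bd_cols (φ : F3) : Bd (4 * tt (3 * φ.length)) (cols φ) := by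
  intro c hc
  rcases mem_cols.1 hc with rfl | ⟨j, hj, rfl⟩ | ⟨k, hk, k', hk', hkk, rfl⟩
  · refine ⟨fun e he => ?_, fun e he => ?_⟩
    · rw [mem_F0] at he
      omega
    · rw [mem_F1] at he
      rcases he with h | h | ⟨l, hl, h⟩ | h
      · unfold tt; omega
      · unfold tt; omega
      · unfold oo at h; unfold tt; omega
      · omega
  · refine ⟨fun e he => mem_C0.1 he, fun e he => ?_⟩
    rw [mem_C1] at he
    rcases he with h | ⟨l, hl, h⟩ | ⟨l, hl, h⟩ | ⟨l, hl, l', hl', h⟩ | h
    · unfold tt; omega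
    · unfold oo at h; unfold tt; omega
    · unfold yy at h; unfold tt; omega
    · unfold yy oo at h; unfold tt; omega
    · omega
  · refine ⟨fun e he => mem_V0.1 he, fun e he => ?_⟩
    rw [mem_V1] at he
    rcases he with h | ⟨l, hl, d, hd, -, -, h⟩ | h
    · unfold tt; omega
    · unfold oo at h; unfold tt; omega
    · omega

section

variable {α : Type} [TEnc α]

theorem poly_wordsB {B : α → ℕ} {C : α → List (List ℕ × List ℕ)} (hB : UPoly B) (hC : Poly C) :
    Poly (fun a => wordsB (B a) (C a)) := by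
  have h1 : UPoly (fun x : (α × ℕ) × ℕ => min x.2 (B x.1.1)) :=
    UPoly.of_le (Poly.min (Poly.snd Poly.id) (Poly.comp (g := B) hB.toPoly (Poly.fst (Poly.fst Poly.id))))
      (UPoly.comp hB (Poly.fst (Poly.fst Poly.id))) fun x => Nat.min_le_right _ _
  have h2 : Poly (fun x : (α × ℕ) × ℕ => List.range (min x.2 (B x.1.1))) := h1.range
  have h3 : ∀ i : ℕ, Poly (fun x : (α × ℕ) × ℕ => wordB (B x.1.1) i x.2 x.1.2) := by
    intro i
    unfold wordB
    fun_prop
  have h4 : Poly (fun a => List.range (C a).length) := (UPoly.length hC).range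
  unfold wordsB
  have h30 := h3 0
  have h31 := h3 1
  refine Poly.flatMap h4 (F := fun a j => ((C a).getD j ([], [])).1.map (fun e => wordB (B a) 0 e j) ++
      ((C a).getD j ([], [])).2.map (fun e => wordB (B a) 1 e j)) ?_
  have hg : Poly (fun x : α × ℕ => (C x.1).getD x.2 ([], [])) := by fun_prop
  refine Poly.append ?_ ?_
  · exact NPC.Poly.map (l := fun x : α × ℕ => ((C x.1).getD x.2 ([], [])).1)
      (F := fun x e => wordB (B x.1) 0 e x.2) (Poly.fst hg) h30
  · exact NPC.Poly.map (l := fun x : α × ℕ => ((C x.1).getD x.2 ([], [])).2)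
      (F := fun x e => wordB (B x.1) 1 e x.2) (Poly.snd hg) h31

theorem upoly_tt {r : α → ℕ} (hr : UPoly r) : UPoly (fun a => tt (r a)) :=
  UPoly.add (UPoly.mul (UPoly.const 64) hr) (UPoly.const 64)

theorem poly_oo {r k : α → ℕ} (hr : Poly r) (hk : Poly k) : Poly (fun a => oo (r a) (k a)) := by
  unfold oo
  fun_prop

theorem poly_yy {r k : α → ℕ} (hr : Poly r) (hk : Poly k) : Poly (fun a => yy (r a) (k a)) := by
  unfold yy
  fun_prop

theorem poly_top {r : α → ℕ} (hr : UPoly r) : Poly (fun a => top (r a)) := by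
  have h1 : Poly (fun a => List.range (3 * tt (r a) + 1)) :=
    (UPoly.add (UPoly.mul (UPoly.const 3) (upoly_tt hr)) (UPoly.const 1)).range
  have h2 := (upoly_tt hr).toPoly
  unfold top
  exact NPC.Poly.map h1 (F := fun a i => tt (r a) + i)
    (Poly.add (Poly.comp (g := fun a => tt (r a)) h2 (Poly.fst Poly.id)) (Poly.snd Poly.id))

theorem poly_full {r : α → ℕ} (hr : UPoly r) : Poly (fun a => List.range (4 * tt (r a) + 1)) :=
  (UPoly.add (UPoly.mul (UPoly.const 4) (upoly_tt hr)) (UPoly.const 1)).range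

theorem poly_ool {r : α → ℕ} (hr : UPoly r) : Poly (fun a => ool (r a)) := by
  have h1 : Poly (fun a => List.range (r a)) := hr.range
  have h2 := hr.toPoly
  unfold ool oo
  fun_prop

theorem poly_colF {r : α → ℕ} (hr : UPoly r) : Poly (fun a => colF (r a)) := by
  have h1 : Poly (fun a => List.range (4 * tt (r a) - 1)) := by
    have h4 : UPoly (fun a => 4 * tt (r a)) := UPoly.mul (UPoly.const 4) (upoly_tt hr)
    exact (UPoly.of_le (Poly.sub h4.toPoly (NPC.Poly.const 1)) h4 fun _ => Nat.sub_le _ _).range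
  have h2 := poly_top hr
  have h3 := poly_ool hr
  unfold colF
  fun_prop

theorem poly_colC {r : α → ℕ} {C : α → List ℕ} (hr : UPoly r) (hC : Poly C) :
    Poly (fun a => colC (r a) (C a)) := by
  have h0 : Poly (fun a => List.range (r a)) := hr.range
  have h1 := hr.toPoly
  have h2 := poly_top hr
  have h3 := poly_ool hr
  have h4 := poly_full hr
  unfold colC
  refine Poly.pair h4 (Poly.append (NPC.Poly.const _) (Poly.append h3 (Poly.append ?_
    (Poly.append ?_ h2))))
  · unfold yy
    fun_prop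
  · refine Poly.flatMap hC (F := fun a k => (List.range (r a)).flatMap fun l =>
      if l = k then [yy (r a) k + oo (r a) l] else
        [yy (r a) k + oo (r a) l, yy (r a) k + oo (r a) l + 1]) ?_
    refine Poly.flatMap (l := fun x : α × ℕ => List.range (r x.1))
      (F := fun x l => if l = x.2 then [yy (r x.1) x.2 + oo (r x.1) l] else
        [yy (r x.1) x.2 + oo (r x.1) l, yy (r x.1) x.2 + oo (r x.1) l + 1])
      (Poly.comp (g := fun a => List.range (r a)) h0 (Poly.fst Poly.id)) ?_
    refine Poly.ite (Poly.dec_eq (by fun_prop) (by fun_prop)) ?_ ?_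
    · unfold yy oo
      fun_prop
    · unfold yy oo
      fun_prop

theorem poly_colV {r k k' : α → ℕ} (hr : UPoly r) (hk : Poly k) (hk' : Poly k') :
    Poly (fun a => colV (r a) (k a) (k' a)) := by
  have h0 : Poly (fun a => List.range (r a)) := hr.range
  have h1 := hr.toPoly
  have h2 := poly_top hr
  have h4 := poly_full hr
  unfold colV
  refine Poly.pair h4 (Poly.append (NPC.Poly.const _) (Poly.append ?_ h2))
  unfold oo
  fun_prop

attribute [local irreducible] colC colV colF

theorem poly_cols : Poly cols := by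
  have hr : UPoly (fun φ : F3 => 3 * φ.length) := UPoly.mul (UPoly.const 3) (UPoly.length Poly.id)
  have h0 : Poly (fun φ : F3 => List.range (3 * φ.length)) := hr.range
  have h1 : Poly (fun φ : F3 => List.range φ.length) := (UPoly.length Poly.id).range
  have hr1 : UPoly (fun x : F3 × ℕ => 3 * x.1.length) :=
    UPoly.mul (UPoly.const 3) (UPoly.length (Poly.fst Poly.id))
  have hr2 : UPoly (fun x : (F3 × ℕ) × ℕ => 3 * x.1.1.length) :=
    UPoly.mul (UPoly.const 3) (UPoly.length (Poly.fst (Poly.fst Poly.id)))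
  have hl1 : Poly (fun x : F3 × ℕ => [3 * x.2, 3 * x.2 + 1, 3 * x.2 + 2]) := by fun_prop
  have hc1 : Poly (fun x : F3 × ℕ => colC (3 * x.1.length) [3 * x.2, 3 * x.2 + 1, 3 * x.2 + 2]) :=
    poly_colC hr1 hl1
  have hv1 : Poly (fun x : (F3 × ℕ) × ℕ => colV (3 * x.1.1.length) x.1.2 x.2) :=
    poly_colV hr2 (Poly.snd (Poly.fst Poly.id)) (Poly.snd Poly.id)
  have hf1 : Poly (fun φ : F3 => colF (3 * φ.length)) := poly_colF hr
  have hm1 : Poly (fun φ : F3 => (List.range φ.length).map fun j =>
      colC (3 * φ.length) [3 * j, 3 * j + 1, 3 * j + 2]) :=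
    NPC.Poly.map h1 (F := fun (φ : F3) (j : ℕ) =>
      colC (3 * φ.length) [3 * j, 3 * j + 1, 3 * j + 2]) hc1
  unfold cols
  refine Poly.cons hf1 (Poly.append hm1 ?_)
  · refine Poly.flatMap h0 (F := fun φ k => ((List.range (3 * φ.length)).filter
      fun k' => contr φ k k').map fun k' => colV (3 * φ.length) k k') ?_
    refine NPC.Poly.map (l := fun x : F3 × ℕ => (List.range (3 * x.1.length)).filter
      fun k' => contr x.1 x.2 k') (F := fun x k' => colV (3 * x.1.length) x.2 k') ?_ ?_
    · refine Poly.filter (l := fun x : F3 × ℕ => List.range (3 * x.1.length))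
        (p := fun x k' => contr x.1 x.2 k') hr1.range ?_
      have a1 : Poly (fun x : (F3 × ℕ) × ℕ => lit x.1.1 x.1.2) :=
        poly_lit (Poly.fst (Poly.fst Poly.id)) (Poly.snd (Poly.fst Poly.id))
      have a2 : Poly (fun x : (F3 × ℕ) × ℕ => lit x.1.1 x.2) :=
        poly_lit (Poly.fst (Poly.fst Poly.id)) (Poly.snd Poly.id)
      unfold contr
      exact Poly.and (Poly.fst a1) (Poly.and (Poly.not (Poly.fst a2))
        (Poly.decide_eq (Poly.snd a1) (Poly.snd a2)))
    · exact hv1

end

theorem poly_red : Poly (fun φ : F3 => inst (cols φ)) := by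
  have hr : UPoly (fun φ : F3 => 3 * φ.length) := UPoly.mul (UPoly.const 3) (UPoly.length Poly.id)
  have h1 : Poly (fun φ : F3 => List.range (3 + (cols φ).length)) :=
    (UPoly.add (UPoly.const 3) (UPoly.length poly_cols)).range
  have h2 : Poly (fun φ : F3 => wordsB (4 * tt (3 * φ.length)) (cols φ)) :=
    poly_wordsB (UPoly.mul (UPoly.const 4) (upoly_tt hr)) poly_cols
  refine (Poly.pair h1 h2).congr fun φ => ?_
  unfold inst
  rw [wordsB_eq (bd_cols φ)]

theorem hard : HardI FACT := hardI_SAT3.trans poly_red red_correct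

end Pool.Agent.R553.FC
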