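import Pool.Agent.R553.FC.Defs

/-!
# From systems of sumset equations to languages
-/

namespace Pool.Agent.R553.FC

/-- The word `a_i m^e b_j`. -/
def word (i e j : ℕ) : List ℕ := i :: (List.replicate e 2 ++ [3 + j])

/-- The words of a system: the `j`-th entry `(W₀, W₁)` gives the words `a_i m^e b_j`, `e ∈ W_i`. -/
def words (C : List (List ℕ × List ℕ)) : List (List ℕ) :=
  (List.range C.length).flatMap fun j =>
    (C.getD j ([], [])).1.map (fun e => word 0 e j) ++ (C.getD j ([], [])).2.map (fun e => word 1 e j)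

/-- The input of FACT of a system. -/
def inst (C : List (List ℕ × List ℕ)) : List ℕ × List (List ℕ) :=
  (List.range (3 + C.length), words C)

/-- The system of sumset equations has a solution. -/
def Solvable (C : List (List ℕ × List ℕ)) : Prop :=
  ∃ X₀ X₁ : Set ℕ, ∀ c ∈ C, ∃ Y : Set ℕ, (∀ e, e ∈ c.1 ↔ ∃ x ∈ X₀, ∃ y ∈ Y, x + y = e) ∧
    ∀ e, e ∈ c.2 ↔ ∃ x ∈ X₁, ∃ y ∈ Y, x + y = e

theorem split {u v : List ℕ} (hu : u ≠ []) (hv : v ≠ []) {i e j : ℕ} (h : u ++ v = word i e j) :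
    ∃ x y, u = i :: List.replicate x 2 ∧ v = List.replicate y 2 ++ [3 + j] ∧ x + y = e := by
  obtain ⟨a, u', rfl⟩ := List.exists_cons_of_ne_nil hu
  obtain ⟨v', b, rfl⟩ := (List.eq_nil_or_concat v).resolve_left hv
  rw [List.concat_eq_append] at h ⊢
  simp only [word, List.cons_append, List.cons.injEq] at h
  obtain ⟨rfl, h⟩ := h
  rw [← List.append_assoc] at h
  obtain ⟨h1, h2⟩ := List.append_inj' h rfl
  rw [List.append_eq_replicate_iff] at h1
  simp only [List.cons.injEq, and_true] at h2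
  refine ⟨u'.length, v'.length, ?_, ?_, h1.1⟩
  · rw [← h1.2.1]
  · rw [← h1.2.2, h2]

theorem join (i x y j : ℕ) :
    (i :: List.replicate x 2) ++ (List.replicate y 2 ++ [3 + j]) = word i (x + y) j := by
  unfold word
  rw [List.cons_append, ← List.append_assoc, List.replicate_append_replicate]

theorem word_inj {i e j i' e' j' : ℕ} (h : word i e j = word i' e' j') :
    i = i' ∧ e = e' ∧ j = j' := by
  simp only [word, List.cons.injEq] at h
  obtain ⟨h1, h2⟩ := h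
  have h3 := List.append_inj' h2 rfl
  have h4 := congrArg List.length h3.1
  simp only [List.length_replicate] at h4
  have h5 := h3.2
  simp only [List.cons.injEq, and_true] at h5
  exact ⟨h1, h4, by omega⟩

theorem mem_words {C : List (List ℕ × List ℕ)} {w : List ℕ} : w ∈ words C ↔
    ∃ j, ∃ h : j < C.length, (∃ e ∈ (C[j]).1, w = word 0 e j) ∨ ∃ e ∈ (C[j]).2, w = word 1 e j := by
  simp only [words, List.mem_flatMap, List.mem_range, List.mem_append, List.mem_map]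
  constructor
  · rintro ⟨j, hj, h⟩
    refine ⟨j, hj, ?_⟩
    rw [List.getD_eq_getElem _ _ hj] at h
    rcases h with ⟨e, he, rfl⟩ | ⟨e, he, rfl⟩
    · exact Or.inl ⟨e, he, rfl⟩
    · exact Or.inr ⟨e, he, rfl⟩
  · rintro ⟨j, hj, h⟩
    refine ⟨j, hj, ?_⟩
    rw [List.getD_eq_getElem _ _ hj]
    rcases h with ⟨e, he, rfl⟩ | ⟨e, he, rfl⟩
    · exact Or.inl ⟨e, he, rfl⟩
    · exact Or.inr ⟨e, he, rfl⟩

theorem word_mem_zero {C : List (List ℕ × List ℕ)} {e j : ℕ} (hj : j < C.length) :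
    word 0 e j ∈ words C ↔ e ∈ (C[j]).1 := by
  rw [mem_words]
  constructor
  · rintro ⟨j', hj', ⟨e', he', h⟩ | ⟨e', he', h⟩⟩
    · obtain ⟨-, rfl, rfl⟩ := word_inj h
      exact he'
    · exact absurd (word_inj h).1 (by norm_num)
  · exact fun h => ⟨j, hj, Or.inl ⟨e, h, rfl⟩⟩

theorem word_mem_one {C : List (List ℕ × List ℕ)} {e j : ℕ} (hj : j < C.length) :
    word 1 e j ∈ words C ↔ e ∈ (C[j]).2 := by
  rw [mem_words]
  constructor
  · rintro ⟨j', hj', ⟨e', he', h⟩ | ⟨e', he', h⟩⟩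
    · exact absurd (word_inj h).1 (by norm_num)
    · obtain ⟨-, rfl, rfl⟩ := word_inj h
      exact he'
  · exact fun h => ⟨j, hj, Or.inr ⟨e, h, rfl⟩⟩

theorem shape {C : List (List ℕ × List ℕ)} {w : List ℕ} (h : w ∈ words C) :
    ∃ i e j, i < 2 ∧ j < C.length ∧ w = word i e j := by
  rw [mem_words] at h
  obtain ⟨j, hj, ⟨e, _, rfl⟩ | ⟨e, _, rfl⟩⟩ := h
  · exact ⟨0, e, j, by norm_num, hj, rfl⟩
  · exact ⟨1, e, j, by norm_num, hj, rfl⟩

theorem isInput_inst {C : List (List ℕ × List ℕ)} (hC : C ≠ []) (h0 : ∀ c ∈ C, c.1 ≠ []) :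
    IsInput (inst C) := by
  refine ⟨?_, ?_, ?_⟩
  · simp [inst]
  · obtain ⟨c, C', rfl⟩ := List.exists_cons_of_ne_nil hC
    obtain ⟨e, l, he⟩ := List.exists_cons_of_ne_nil (h0 c (by simp))
    have : word 0 e 0 ∈ words (c :: C') := by
      rw [word_mem_zero (by simp)]
      simp [he]
    intro hnil
    simp only [inst] at hnil
    rw [hnil] at this
    simp at this
  · intro w hw a ha
    obtain ⟨i, e, j, hi, hj, rfl⟩ := shape hw
    simp only [word, List.mem_cons, List.mem_append, List.mem_replicate, List.not_mem_nil,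
      or_false] at ha
    simp only [inst, List.mem_range]
    omega

theorem solvable_of_fact {C : List (List ℕ × List ℕ)} (h : FACT (inst C)) : Solvable C := by
  obtain ⟨⟨-, hne, -⟩, L₁, L₂, ⟨-, -, -, -, hL⟩, hL₁, hL₂⟩ := h
  have hmem : ∀ w, w ∈ words C ↔ ∃ u ∈ L₁, ∃ v ∈ L₂, u ++ v = w := by
    intro w
    rw [← Language.mem_mul, ← hL]
    rfl
  obtain ⟨w₀, hw₀⟩ := List.exists_mem_of_ne_nil _ hne
  obtain ⟨u₀, hu₀, v₀, hv₀, -⟩ := (hmem w₀).1 hw₀
  obtain ⟨u, hu, hune⟩ : ∃ u ∈ L₁, u ≠ [] := by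
    by_contra hcon
    push Not at hcon
    exact hL₁ (Set.eq_singleton_iff_nonempty_unique_mem.2 ⟨⟨u₀, hu₀⟩, hcon⟩)
  obtain ⟨v, hv, hvne⟩ : ∃ v ∈ L₂, v ≠ [] := by
    by_contra hcon
    push Not at hcon
    exact hL₂ (Set.eq_singleton_iff_nonempty_unique_mem.2 ⟨⟨v₀, hv₀⟩, hcon⟩)
  obtain ⟨i, e, j, hi, hj, hij⟩ := shape ((hmem _).2 ⟨u, hu, v, hv, rfl⟩)
  obtain ⟨x, y, hux, hvy, -⟩ := split hune hvne hij
  have hn1 : ∀ a ∈ L₁, a ≠ [] := by
    rintro a ha rfl
    have h1 : v ∈ words C := (hmem _).2 ⟨[], ha, v, hv, rfl⟩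
    obtain ⟨i', e', j', hi', hj', hv'⟩ := shape h1
    rw [hvy] at hv'
    cases y with
    | zero =>
      have := congrArg List.length hv'
      simp [word] at this
    | succ y =>
      simp only [word, List.replicate_succ, List.cons_append, List.cons.injEq] at hv'
      omega
  have hn2 : ∀ a ∈ L₂, a ≠ [] := by
    rintro a ha rfl
    have h1 : u ∈ words C := (hmem _).2 ⟨u, hu, [], ha, by simp⟩
    obtain ⟨i', e', j', hi', hj', hu'⟩ := shape h1
    rw [hux] at hu'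
    simp only [word, List.cons.injEq] at hu'
    have h2 : 3 + j' ∈ List.replicate x 2 := by rw [hu'.2]; simp
    rw [List.mem_replicate] at h2
    omega
  refine ⟨{x | 0 :: List.replicate x 2 ∈ L₁}, {x | 1 :: List.replicate x 2 ∈ L₁}, ?_⟩
  intro c hc
  obtain ⟨j, hj, rfl⟩ := List.mem_iff_getElem.1 hc
  refine ⟨{y | List.replicate y 2 ++ [3 + j] ∈ L₂}, ?_, ?_⟩
  · intro e
    rw [← word_mem_zero hj, hmem]
    constructor
    · rintro ⟨a, ha, b, hb, hab⟩
      obtain ⟨x, y, rfl, rfl, hxy⟩ := split (hn1 a ha) (hn2 b hb) hab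
      exact ⟨x, ha, y, hb, hxy⟩
    · rintro ⟨x, hx, y, hy, rfl⟩
      exact ⟨_, hx, _, hy, join _ _ _ _⟩
  · intro e
    rw [← word_mem_one hj, hmem]
    constructor
    · rintro ⟨a, ha, b, hb, hab⟩
      obtain ⟨x, y, rfl, rfl, hxy⟩ := split (hn1 a ha) (hn2 b hb) hab
      exact ⟨x, ha, y, hb, hxy⟩
    · rintro ⟨x, hx, y, hy, rfl⟩
      exact ⟨_, hx, _, hy, join _ _ _ _⟩

theorem finite_left {L : List (List ℕ)} {L₁ L₂ : Language ℕ} (h : langOf L = L₁ * L₂)
    {v : List ℕ} (hv : v ∈ L₂) : Set.Finite (L₁ : Set (List ℕ)) := by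
  have hfin : Set.Finite {w : List ℕ | w ∈ L} := L.finite_toSet
  refine Set.Finite.of_injOn (f := fun u => u ++ v) (t := {w : List ℕ | w ∈ L}) ?_ ?_ hfin
  · intro u hu
    have : u ++ v ∈ langOf L := by
      rw [h]
      exact Language.append_mem_mul hu hv
    exact this
  · intro a _ b _ hab
    exact List.append_cancel_right hab

theorem finite_right {L : List (List ℕ)} {L₁ L₂ : Language ℕ} (h : langOf L = L₁ * L₂)
    {u : List ℕ} (hu : u ∈ L₁) : Set.Finite (L₂ : Set (List ℕ)) := by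
  have hfin : Set.Finite {w : List ℕ | w ∈ L} := L.finite_toSet
  refine Set.Finite.of_injOn (f := fun v => u ++ v) (t := {w : List ℕ | w ∈ L}) ?_ ?_ hfin
  · intro v hv
    have : u ++ v ∈ langOf L := by
      rw [h]
      exact Language.append_mem_mul hu hv
    exact this
  · intro a _ b _ hab
    exact List.append_cancel_left hab

theorem fact_of_solvable {C : List (List ℕ × List ℕ)} (hC : C ≠ []) (h0 : ∀ c ∈ C, c.1 ≠ [])
    (h : Solvable C) : FACT (inst C) := by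
  refine ⟨isInput_inst hC h0, ?_⟩
  obtain ⟨X₀, X₁, h⟩ := h
  have h' : ∀ j : ℕ, ∃ Y : Set ℕ, ∀ hj : j < C.length,
      (∀ e, e ∈ (C[j]).1 ↔ ∃ x ∈ X₀, ∃ y ∈ Y, x + y = e) ∧
        ∀ e, e ∈ (C[j]).2 ↔ ∃ x ∈ X₁, ∃ y ∈ Y, x + y = e := by
    intro j
    by_cases hj : j < C.length
    · obtain ⟨Y, hY⟩ := h C[j] (List.getElem_mem hj)
      exact ⟨Y, fun _ => hY⟩
    · exact ⟨∅, fun hj' => absurd hj' hj⟩
  choose Y hY using h'
  let L₁ : Language ℕ := {u | (∃ x ∈ X₀, u = 0 :: List.replicate x 2) ∨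
    ∃ x ∈ X₁, u = 1 :: List.replicate x 2}
  let L₂ : Language ℕ := {v | ∃ j, j < C.length ∧ ∃ y ∈ Y j, v = List.replicate y 2 ++ [3 + j]}
  have hmul : langOf (words C) = L₁ * L₂ := by
    ext w
    rw [Language.mem_mul]
    change w ∈ words C ↔ _
    constructor
    · intro hw
      obtain ⟨j, hj, ⟨e, he, rfl⟩ | ⟨e, he, rfl⟩⟩ := mem_words.1 hw
      · obtain ⟨x, hx, y, hy, rfl⟩ := ((hY j hj).1 e).1 he
        exact ⟨_, Or.inl ⟨x, hx, rfl⟩, _, ⟨j, hj, y, hy, rfl⟩, join _ _ _ _⟩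
      · obtain ⟨x, hx, y, hy, rfl⟩ := ((hY j hj).2 e).1 he
        exact ⟨_, Or.inr ⟨x, hx, rfl⟩, _, ⟨j, hj, y, hy, rfl⟩, join _ _ _ _⟩
    · rintro ⟨u, ⟨x, hx, rfl⟩ | ⟨x, hx, rfl⟩, v, ⟨j, hj, y, hy, rfl⟩, rfl⟩
      · rw [join, word_mem_zero hj]
        exact ((hY j hj).1 _).2 ⟨x, hx, y, hy, rfl⟩
      · rw [join, word_mem_one hj]
        exact ((hY j hj).2 _).2 ⟨x, hx, y, hy, rfl⟩
  obtain ⟨c, C', rfl⟩ := List.exists_cons_of_ne_nil hC
  obtain ⟨e, l, he⟩ := List.exists_cons_of_ne_nil (h0 c (by simp))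
  have hw : word 0 e 0 ∈ langOf (words (c :: C')) := by
    change word 0 e 0 ∈ words (c :: C')
    rw [word_mem_zero (by simp)]
    simp [he]
  rw [hmul, Language.mem_mul] at hw
  obtain ⟨u, hu, v, hv, -⟩ := hw
  have hu1 : ∀ a ∈ L₁, a ≠ [] := by
    rintro a (⟨x, -, rfl⟩ | ⟨x, -, rfl⟩) <;> simp
  have hv1 : ∀ a ∈ L₂, a ≠ [] := by
    rintro a ⟨j, -, y, -, rfl⟩
    simp
  refine ⟨L₁, L₂, ⟨finite_left hmul hv, finite_right hmul hu, ?_, ?_, hmul⟩, ?_, ?_⟩
  · rintro w (⟨x, -, rfl⟩ | ⟨x, -, rfl⟩) a ha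
    · simp only [List.mem_cons, List.mem_replicate] at ha
      simp only [inst, List.mem_range]
      omega
    · simp only [List.mem_cons, List.mem_replicate] at ha
      simp only [inst, List.mem_range]
      omega
  · rintro w ⟨j, hj, y, -, rfl⟩ a ha
    simp only [List.mem_append, List.mem_replicate, List.mem_cons, List.not_mem_nil, or_false] at ha
    simp only [inst, List.mem_range]
    omega
  · intro hcon
    have : ([] : List ℕ) ∈ L₁ := by rw [hcon]; rfl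
    exact hu1 _ this rfl
  · intro hcon
    have : ([] : List ℕ) ∈ L₂ := by rw [hcon]; rfl
    exact hv1 _ this rfl

theorem fact_iff {C : List (List ℕ × List ℕ)} (hC : C ≠ []) (h0 : ∀ c ∈ C, c.1 ≠ []) :
    FACT (inst C) ↔ Solvable C :=
  ⟨solvable_of_fact, fact_of_solvable hC h0⟩

end Pool.Agent.R553.FC
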